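import Pool.Agent.H.MP_05754a_lc.A
import Pool.Agent.Lib.helper21.ML

set_option autoImplicit false

namespace Pool.Agent.Results.MP_05754a_lc.Birkhoff

open Pool.Agent.Lib.helper21 PR ML Pool.Agent.H.MP_fa2eca_lc Pool.Agent.H.MP_05754a_lc Filter Set MeasureTheory Topology

attribute [local irreducible] Primrec Computable

/-- the left shift -/
def T (w : ℕ → Bool) : ℕ → Bool := fun n => w (n + 1)

/-- the cylinder of sequences starting with `x` -/
def Cyl (x : List Bool) : Set (ℕ → Bool) := {w | (List.range x.length).map w = x}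

/-- union of the cylinders of the strings in `V` -/
def Opn (V : List Bool → Prop) : Set (ℕ → Bool) := {w | ∃ x, V x ∧ w ∈ Cyl x}

def Stationary (P : Measure (ℕ → Bool)) : Prop := ∀ x, P (Cyl x) = P (Cyl (false :: x)) + P (Cyl (true :: x))

/-- lower semicomputable; the triple `(a, b, c)` codes the rational `(a - b) / (c + 1)` -/
def LSC (f : (ℕ → Bool) → ℝ) : Prop := ∃ W : (ℕ × ℕ × ℕ) × List Bool → Prop, REPred W ∧
  ∀ a b c : ℕ, {w | ((a : ℝ) - b) / (c + 1) < f w} = Opn fun x => W ((a, b, c), x)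

def MLRandom (P : Measure (ℕ → Bool)) (w : ℕ → Bool) : Prop := ∀ W : ℕ × List Bool → Prop, REPred W →
  (∀ m, Opn (fun x => W (m + 1, x)) ⊆ Opn fun x => W (m, x)) → (∀ m, P (Opn fun x => W (m, x)) ≤ 2⁻¹ ^ m) →
    w ∉ ⋂ m, Opn fun x => W (m, x)

theorem opn {V : List Bool → Prop} {w : ℕ → Bool} : w ∈ Opn V ↔ ∃ r, V (pre w r) :=
  ⟨fun ⟨x, a, b⟩ => ⟨x.length, by rwa [show pre w x.length = x from b]⟩,
    fun ⟨r, a⟩ => ⟨_, a, show pre w _ = _ by rw [pre_len]⟩⟩

theorem meas (V : List Bool → Prop) : MeasurableSet (Opn V) := by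
  rw [show Opn V = _ from Set.ext fun _ => opn]
  exact opn_meas V

theorem iter (i : ℕ) : ∀ w : ℕ → Bool, T^[i] w = fun n => w (n + i) := by
  induction i with
  | zero => exact fun _ => rfl
  | succ i ih => exact fun w => by rw [Function.iterate_succ_apply, ih]; rfl

theorem cut {w : ℕ → Bool} {p r R : ℕ} (h : p + r ≤ R) : ((pre w R).drop p).take r = pre (T^[p] w) r :=
  List.ext_getElem (by simp [pre]; omega) fun i _ _ => by simp [pre, iter, add_comm]

theorem pres {P : Measure (ℕ → Bool)} [IsProbabilityMeasure P] (h : Stationary P) : MeasurePreserving T P P := by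
  have m : Measurable T := measurable_pi_lambda _ fun n => measurable_pi_apply _
  have c : ∀ x, MeasurableSet (Cyl x) := cyl_meas
  refine ⟨m, ext_of_generate_finite (range Cyl) (le_antisymm ?_ (MeasurableSpace.generateFrom_le (by simpa using c))) ?_ ?_
    (by simp [Measure.map_apply m])⟩
  · refine iSup_le fun i s ⟨t, _, e⟩ => ?_
    have : s = ⋃ x ∈ {x : List Bool | x.length = i + 1 ∧ x.getD i false ∈ t}, Cyl x := by
      ext w
      simp only [← e, mem_iUnion, mem_setOf, exists_prop, mem_preimage]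
      exact ⟨fun k => ⟨pre w (i + 1), ⟨pre_len .., by simpa [pre]⟩, show pre w _ = _ by rw [pre_len]⟩,
        fun ⟨x, ⟨a, b⟩, k⟩ => by rw [← show pre w _ = x from k, a] at b; simpa [pre] using b⟩
    exact this ▸ MeasurableSet.biUnion (to_countable _) fun x _ => MeasurableSpace.measurableSet_generateFrom ⟨x, rfl⟩
  · rintro _ ⟨x, rfl⟩ _ ⟨y, rfl⟩ ⟨w, a, b⟩
    have k : ∀ x y, w ∈ Cyl x → w ∈ Cyl y → x.length ≤ y.length → Cyl y ⊆ Cyl x := fun x y a b l z c => by
      change pre _ _ = _ at a b c ⊢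
      rw [← pre_take z l, c, ← b, pre_take w l, a]
    rcases le_total x.length y.length with l | l
    · exact ⟨y, (inter_eq_right.2 (k _ _ a b l)).symm⟩
    · exact ⟨x, (inter_eq_left.2 (k _ _ b a l)).symm⟩
  rintro _ ⟨x, rfl⟩
  have k : ∀ b w, w ∈ Cyl (b :: x) ↔ w 0 = b ∧ T w ∈ Cyl x := fun b w => by
    simp [Cyl, List.range_succ_eq_map, Function.comp_def, show T w = fun n => w (n + 1) from rfl]
  rw [Measure.map_apply m (c x), h, ← measure_union (disjoint_left.2 (by simp +contextual [k])) (c _)]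
  exact congrArg _ (Set.ext fun w => by cases e : w 0 <;> simp [k, e])

theorem test {P : Measure (ℕ → Bool)} [IsProbabilityMeasure P] (h : Stationary P) {w : ℕ → Bool} (hw : MLRandom P w)
    {B : ℕ → List Bool → ℕ → Bool} (b1 : Primrec fun z : ℕ × List Bool × ℕ => B z.1 z.2.1 z.2.2)
    {g : ℕ → (ℕ → Bool) → ℕ} (b2 : ∀ z, Monotone fun s => g s z)
    (e : ∀ s z, g s z = ((Finset.range s).filter fun m => ∃ r < s + 1, B m (pre z r) s = true).card) (A : ℕ) :
    ∃ K k, 0 < K ∧ ∀ N, ¬ C A K (fun s n => ∑ p ∈ Finset.range n, g s (T^[p] w)) k N := by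
  classical
  by_contra! o
  obtain ⟨S, s1, s2⟩ : ∃ S : List Bool → ℕ → ℕ → ℕ, Primrec (fun z : List Bool × ℕ × ℕ => S z.1 z.2.1 z.2.2) ∧
    ∀ x s n, S x s n = ∑ p ∈ Finset.range n, ((Finset.range s).filter fun m => ∃ r < s + 1,
      B m ((x.drop p).take r) s = true).card := ⟨_, by fun_prop, fun _ _ _ => rfl⟩
  obtain ⟨V, v1, v2⟩ : ∃ V : ℕ → ℕ → ℕ → List Bool → Prop, RE (fun z : ℕ × ℕ × ℕ × List Bool =>
      V z.1 z.2.1 z.2.2.1 z.2.2.2) ∧ ∀ K k N x, V K k N x ↔ (K + 1) * N ≤ x.length ∧ C A K (S x) k N :=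
    ⟨_, RE.un (RE.re (by unfold C; fun_prop)), fun _ _ _ _ => .rfl⟩
  have s3 : ∀ K N R z, (K + 1) * N ≤ R → ∀ s ≤ K * N, ∀ n ≤ N, S (pre z R) s n =
      ∑ p ∈ Finset.range n, g s (T^[p] z) := fun K N R z a s b n c => by
    rw [s2]
    refine Finset.sum_congr rfl fun p d => ?_
    rw [e]
    refine congrArg _ (Finset.filter_congr fun m _ => exists_congr fun r => and_congr_right fun f => ?_)
    rw [cut (by have := Finset.mem_range.1 d; nlinarith)]
  have v3 : ∀ K k N R z, 0 < K → (V K k N (pre z R) ↔ (K + 1) * N ≤ R ∧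
      C A K (fun s n => ∑ p ∈ Finset.range n, g s (T^[p] z)) k N) := fun K k N R z a => by
    rw [v2, pre_len]
    exact and_congr_right fun b => ⟨fun c => c.congr a le_rfl (s3 K N R z b),
      fun c => c.congr a le_rfl fun s d n f => (s3 K N R z b s d n f).symm⟩
  have v4 : ∀ K k N z, 0 < K → (z ∈ Opn (V K k N) ↔ C A K (fun s n => ∑ p ∈ Finset.range n, g s (T^[p] z)) k N) :=
    fun K k N z a => opn.trans ⟨fun ⟨R, b⟩ => ((v3 _ _ _ _ _ a).1 b).2, fun b => ⟨_, (v3 _ _ _ _ _ a).2 ⟨le_rfl, b⟩⟩⟩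
  obtain ⟨L, l1, l2⟩ : ∃ L : ℕ → ℕ, Primrec L ∧ ∀ m, L m = 12 * (A + 1) * 2 ^ m := ⟨_, by fun_prop, fun _ => rfl⟩
  refine hw (fun z => ∀ m < z.1 + 1, ∃ N, V (L m + 1) ((2 * A + 1) * (m + 1)) N z.2) (RE.re (by fun_prop))
    (fun m z ⟨x, a, b⟩ => ⟨x, fun j c => a j (by omega), b⟩) (fun m => ?_) (mem_iInter.2 fun m => opn.2 ?_)
  · refine (measure_mono (t := ⋃ N, Opn (V (L m + 1) ((2 * A + 1) * (m + 1)) N)) fun z k => k.elim fun x k =>
      (k.1 m m.lt_succ_self).elim fun N a => mem_iUnion.2 ⟨N, x, a, k.2⟩).trans ?_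
    rw [Monotone.measure_iUnion fun N M a z b => (v4 _ _ _ _ (by omega)).2
      (((v4 _ _ _ _ (by omega)).1 b).congr (by omega) a fun _ _ _ _ => rfl)]
    refine iSup_le fun N => ?_
    generalize f : Opn (V (L m + 1) ((2 * A + 1) * (m + 1)) N) = E
    have c : MeasurableSet E := f ▸ meas _
    have d : ∀ M : ℕ, M * P.real E ≤ 2⁻¹ ^ m * (M + N) := fun M => by
      have q : ∀ i, MeasurableSet (T^[i] ⁻¹' E) := fun i => ((pres h).iterate i).measurable c
      have : ∫ z, ∑ i ∈ Finset.range M, (T^[i] ⁻¹' E).indicator (1 : (ℕ → Bool) → ℝ) z ∂P = M * P.real E := by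
        rw [integral_finset_sum _ fun i _ => (integrable_const _).indicator (q i)]
        simp [integral_indicator_one (q _), ((pres h).iterate _).measureReal_preimage c.nullMeasurableSet]
      rw [← this]
      refine (integral_mono (integrable_finset_sum _ fun i _ => (integrable_const _).indicator (q i))
        (integrable_const ((2⁻¹ : ℝ) ^ m * (M + N))) fun z => ?_).trans (by simp)
      have := bound (A := A) (L := L m) (g := fun s p => g s (T^[p] z)) (by
        have := m.one_le_two_pow; rw [l2]; nlinarith) (fun p => b2 _) ((2 * A + 1) * (m + 1)) 0 M N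
      refine le_trans (le_of_eq ?_) (this.trans (mul_le_mul_of_nonneg_right (l2 m ▸ small A m) (by positivity)))
      simp [indicator, ← f, v4, ← Function.iterate_add_apply, add_comm]
    rw [← ENNReal.ofReal_toReal (measure_ne_top P E), show (2⁻¹ : ENNReal) ^ m = ENNReal.ofReal (2⁻¹ ^ m) by
      simp [ENNReal.ofReal_pow, ENNReal.ofReal_inv_of_pos, ENNReal.inv_pow]]
    refine ENNReal.ofReal_le_ofReal (not_lt.1 fun q => ?_)
    obtain ⟨M, q⟩ := exists_lt_nsmul (sub_pos.2 q) (2⁻¹ ^ m * N)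
    have := d M
    simp only [nsmul_eq_mul, Measure.real] at q this
    linarith
  choose N o using fun m => o (L m + 1) ((2 * A + 1) * (m + 1)) (by omega)
  exact ⟨∑ j ∈ Finset.range (m + 1), (L j + 1 + 1) * N j, fun j a => ⟨N j, (v3 _ _ _ _ _ (by omega)).2
    ⟨Finset.single_le_sum (f := fun j => (L j + 1 + 1) * N j) (by simp) (Finset.mem_range.2 a), o j⟩⟩⟩

theorem result (P : Measure (ℕ → Bool)) [IsProbabilityMeasure P] (h : Stationary P) (f : (ℕ → Bool) → ℝ) (hf : LSC f)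
    (w : ℕ → Bool) (hw : MLRandom P w) :
    (∃ L : ℝ, Tendsto (fun n : ℕ => (∑ k ∈ Finset.range n, f (T^[k] w)) / n) atTop (𝓝 L)) ∨
      Tendsto (fun n : ℕ => (∑ k ∈ Finset.range n, f (T^[k] w)) / n) atTop atTop := by
  classical
  obtain ⟨W, w1, w2⟩ := hf
  replace w2 : ∀ (a b c : ℕ) z, ((a : ℝ) - b) / (c + 1) < f z ↔ ∃ r, W ((a, b, c), pre z r) :=
    fun a b c z => (Set.ext_iff.1 (w2 a b c) z).trans opn
  obtain ⟨Q, hQ⟩ : ∃ Q : ℕ, ∀ z, 0 < f z + Q := by
    by_contra! o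
    obtain ⟨z, k⟩ := Fn.compact (fun s z => ∀ b < s, ∀ r < s, ¬ W ((0, b, 0), pre z r))
      (fun s z y e k b l r m => pre_congr (fun i j => e i (j.trans m)) ▸ k b l r m) fun s => (o s).imp
        fun z k u l b m r _ q => by
          have := (w2 ..).2 ⟨r, q⟩
          have : (b : ℝ) < s := by exact_mod_cast m.trans_le l
          simp only [Nat.cast_zero, zero_sub, zero_add, div_one] at *
          linarith
    obtain ⟨b, l⟩ := exists_nat_gt (-f z)
    obtain ⟨r, m⟩ := (w2 0 b 0 z).1 (by simp; linarith)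
    exact k (b + r + 1) b (by omega) r (by omega) m
  generalize e : (fun n : ℕ => (∑ k ∈ Finset.range n, f (T^[k] w)) / n) = x
  have x1 : ∀ n : ℕ, 0 < n → ∑ k ∈ Finset.range n, (f (T^[k] w) + Q) = (x n + Q) * n := fun n k => by
    simp [← e, Finset.sum_add_distrib]; field_simp
  have x2 : ∀ n : ℕ, 0 < n → 0 ≤ x n + Q := fun n k => nonneg_of_mul_nonneg_left
    (x1 n k ▸ Finset.sum_nonneg fun _ _ => (hQ _).le) (by positivity)
  suffices H : ∀ a b, a < b → ¬ ((∃ᶠ n in atTop, x n < a) ∧ ∃ᶠ n in atTop, b < x n) by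
    by_cases k : ∃ b, ∀ᶠ n in atTop, x n ≤ b
    · exact .inl (tendsto_of_no_upcrossings dense_univ (fun a _ b _ => H a b) k
        ⟨-Q, (eventually_gt_atTop 0).mono fun n l => by have := x2 n l; simp; linarith⟩)
    · exact .inr (tendsto_atTop.2 fun a => by
        simpa [-eventually_atTop] using fun l => H a (a + 1) (by simp) ⟨l, by simpa [-eventually_atTop] using not_exists.1 k (a + 1)⟩)
  rintro a b l ⟨k1, k2⟩
  obtain ⟨D, hD⟩ := exists_nat_gt (3 / (b - a))
  rw [div_lt_iff₀ (sub_pos.2 l)] at hD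
  obtain ⟨B, b1, b2, b3, b4⟩ := re_bool w1
  obtain ⟨g, g1⟩ : ∃ g : ℕ → (ℕ → Bool) → ℕ, ∀ s z, g s z = ((Finset.range s).filter fun m => ∃ r < s + 1,
    B ((m + 1, Q * (D + 1), D), pre z r) s = true).card := ⟨_, fun _ _ => rfl⟩
  have g0 : ∀ (m : ℕ) z, (∃ r, W ((m + 1, Q * (D + 1), D), pre z r)) ↔ (m : ℝ) + 1 < (D + 1) * (f z + Q) := fun m z => by
    rw [← w2, div_lt_iff₀ (by positivity)]
    push_cast
    constructor <;> intro <;> linarith
  have g2 : ∀ z, Monotone fun s => g s z := fun z s t o => by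
    simp only [g1]
    exact Finset.card_le_card fun m q => by
      simp only [Finset.mem_filter, Finset.mem_range] at q ⊢
      exact ⟨by omega, q.2.imp fun r q => ⟨by omega, b3 _ _ _ o q.2⟩⟩
  have g3 : ∀ s z, (g s z : ℝ) ≤ (D + 1) * (f z + Q) := fun s z => by
    have : 0 ≤ (D + 1 : ℝ) * (f z + Q) := by have := hQ z; positivity
    refine le_trans (Nat.cast_le.2 ?_) (Nat.floor_le this)
    rw [g1, ← Finset.card_range ⌊_⌋₊]
    exact Finset.card_le_card fun m q => let ⟨r, q⟩ := (Finset.mem_filter.1 q).2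
      Finset.mem_range.2 (Nat.le_floor (by exact_mod_cast ((g0 m z).1 ⟨r, b2 _ _ q.2⟩).le))
  have g4 : ∀ z, ∀ᶠ s in atTop, (D + 1) * (f z + Q) - 1 ≤ g s z := fun z => by
    have : ∀ m ∈ Finset.range (⌈(D + 1) * (f z + Q)⌉₊ - 1), ∀ᶠ s in atTop, m < s ∧ ∃ r < s + 1,
        B ((m + 1, Q * (D + 1), D), pre z r) s = true := fun m q => by
      obtain ⟨r, q⟩ := (g0 m z).2 (by
        exact_mod_cast Nat.lt_ceil.1 (show m + 1 < ⌈((D : ℝ) + 1) * (f z + Q)⌉₊ by have := Finset.mem_range.1 q; omega))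
      obtain ⟨t, q⟩ := b4 _ q
      filter_upwards [eventually_ge_atTop (m + r + t + 1)] with s o using ⟨by omega, r, by omega, b3 _ _ _ (by omega) q⟩
    filter_upwards [(eventually_all_finset _).2 this] with s o
    have : ⌈(D + 1) * (f z + Q)⌉₊ ≤ g s z + 1 := by
      have := Finset.card_le_card (t := (Finset.range s).filter fun m => ∃ r < s + 1,
        B ((m + 1, Q * (D + 1), D), pre z r) s = true) fun m q => by simpa using o m q
      rw [Finset.card_range, ← g1] at this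
      omega
    have := Nat.ceil_le.1 this
    push_cast at this
    linarith
  obtain ⟨A, a1, a2⟩ : ∃ A : ℕ, (D + 1) * (a + Q) ≤ A ∧ A < (D + 1) * (a + Q) + 1 := by
    obtain ⟨n, p, q⟩ := (k1.and_eventually (eventually_gt_atTop 0)).exists
    have := x2 n q
    exact ⟨_, Nat.le_ceil _, Nat.ceil_lt_add_one (mul_nonneg (by positivity) (by linarith))⟩
  obtain ⟨K, k, K0, o⟩ := test h hw (B := fun m x s => B ((m + 1, Q * (D + 1), D), x) s) (by fun_prop) g2 g1 A
  have : ∀ c, ∃ n m, c ≤ n ∧ K * K * n ≤ m ∧ (A + 1) * n < ∑ p ∈ Finset.range n, g m (T^[p] w) ∧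
      ∑ p ∈ Finset.range m, g (K * m) (T^[p] w) < A * m := fun c => by
    obtain ⟨n, p, q⟩ := (k2.and_eventually (eventually_gt_atTop c)).exists
    obtain ⟨m, r, s, t, u⟩ := (k1.and_eventually ((eventually_gt_atTop 0).and ((eventually_ge_atTop (K * K * n)).and
      ((eventually_all_finset (Finset.range n)).2 fun p _ => g4 (T^[p] w))))).exists
    have n0 : (0 : ℝ) < n := by norm_cast; omega
    have m0 : (0 : ℝ) < m := by norm_cast
    refine ⟨n, m, q.le, t, (Nat.cast_lt (α := ℝ)).1 ?_, (Nat.cast_lt (α := ℝ)).1 ?_⟩ <;> push_cast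
    · refine lt_of_lt_of_le ?_ (Finset.sum_le_sum u)
      rw [Finset.sum_sub_distrib, ← Finset.mul_sum, x1 n (by omega)]
      simp only [Finset.sum_const, Finset.card_range, nsmul_eq_mul]
      have : (A : ℝ) + 2 < (D + 1) * (x n + Q) := by nlinarith
      nlinarith
    · refine (Finset.sum_le_sum fun p _ => g3 _ _).trans_lt ?_
      rw [← Finset.mul_sum, x1 m s, ← mul_assoc]
      exact mul_lt_mul_of_pos_right (lt_of_lt_of_le (by gcongr) a1) m0
  choose n m c1 c2 c3 c4 using this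
  obtain ⟨c, hc⟩ : ∃ c : ℕ → ℕ, ∀ j, c (j + 1) = K * K * m (c j) := ⟨fun j => j.rec 0 fun _ c => K * K * m c, fun _ => rfl⟩
  have : ∀ y, y ≤ K * K * y := fun y => Nat.le_mul_of_pos_left _ (by positivity)
  have c5 : Monotone c := monotone_nat_of_le_succ fun j => hc j ▸ (c1 _).trans ((this _).trans ((c2 _).trans (this _)))
  refine o (c k) ⟨(List.range k).map fun j => n (c j), (List.range k).map fun j => m (c j), fun j p => ?_⟩
  have q : ∀ (y : ℕ → ℕ), ∀ i < k, ((List.range k).map y).getD i 0 = y i := fun y i p => by simp [p]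
  rw [q _ _ p, q _ _ p]
  exact ⟨c2 _, (this _).trans (hc j ▸ c5 p), c3 _, c4 _, fun i r => by
    rw [q _ _ (r.trans p), ← hc]; exact (c5 r).trans (c1 _)⟩

end Pool.Agent.Results.MP_05754a_lc.Birkhoff
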